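import Pool.Agent.H97.HV.Targets
import Pool.Agent.H45.NF.PA

/-!
# Row UNI of the board hov (MP_e37c09_lc): uniformization
-/

open Ordinal Cardinal Order Set
open scoped ZFSet

universe u

namespace Pool.Agent.H72.HV

open _root_.HD HD.PRK HD.HV

theorem pf_UNI : T_UNI.{u} := by
  refine ⟨fun l Q a x hQ ha hx hxQ => ?_, fun R a x hR h => ?_⟩
  · obtain ⟨R₀, hR₀, h⟩ := (Pool.Agent.H45.NF.pf_pa a x).1 hx
    refine ⟨ZFSet.sep (fun w => ∃ a' z, w = ZFSet.pair a' z ∧ (a' ∈ V_ l ∧ z ∈ Q) ∧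
      ∃ X, (∀ X', ZFSet.pair a' X' ∈ R₀ ↔ X' = X) ∧ z ∈ X) (ZFSet.prod (V_ l) Q), ?_, ?_, ?_⟩
    · refine OD.of_mem (P := fun v => ∃ a' z, v 0 = ZFSet.pair a' z ∧ (a' ∈ V_ l ∧ z ∈ Q) ∧
        ∃ X, (∀ X', ZFSet.pair a' X' ∈ R₀ ↔ X' = X) ∧ z ∈ X) ?_ fun v => ?_
      · refine DZ.ex (R := fun a' v => ∃ z, v 0 = ZFSet.pair a' z ∧ (a' ∈ V_ l ∧ z ∈ Q) ∧
          ∃ X, (∀ X', ZFSet.pair a' X' ∈ R₀ ↔ X' = X) ∧ z ∈ X)
          (DZ.ex ((loc_pair 2 1 0).dz.and (DZ.and (DZ.and ?_ ?_) (DZ.ex (DZ.and (DZ.all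
            (DZ.iff ?_ (DZ.eq 0 1))) (DZ.mem 1 0))))))
        · exact DZ.od (R := fun b v => v 1 ∈ b) (HD.NF.od_V l) (DZ.mem 2 0)
        · exact DZ.od (R := fun b v => v 0 ∈ b) hQ (DZ.mem 1 0)
        · exact DZ.od (R := fun r v => ZFSet.pair (v 3) (v 0) ∈ r) hR₀ (loc_pmem 4 1 0).dz
      · rw [ZFSet.mem_sep]
        refine ⟨fun h => ⟨?_, h⟩, fun h => h.2⟩
        obtain ⟨a', z, h1, h2, -⟩ := h
        rw [h1, ZFSet.pair_mem_prod]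
        exact h2
    · exact fun w hw => (ZFSet.mem_sep.1 hw).1
    · intro z
      rw [ZFSet.mem_sep]
      constructor
      · rintro ⟨-, a', z', he, -, X, h1, h2⟩
        obtain ⟨rfl, rfl⟩ := ZFSet.pair_injective he
        rw [← (h1 x).1 ((h x).2 rfl)] at h2
        exact h2
      · intro hz
        exact ⟨ZFSet.pair_mem_prod.2 ⟨ha, hxQ hz⟩, a, z, rfl, ⟨ha, hxQ hz⟩, x, h, hz⟩
  · refine Pool.Agent.H45.NF.ODp.of_dz
      (Q := fun v => ∀ z, z ∈ v 0 ↔ ZFSet.pair (v 1) z ∈ R) (DZ.all (DZ.iff (DZ.mem 0 1) ?_))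
      fun y => ?_
    · exact DZ.od (R := fun r v => ZFSet.pair (v 2) (v 0) ∈ r) hR (loc_pmem 3 1 0).dz
    · show (∀ z, z ∈ y ↔ ZFSet.pair a z ∈ R) ↔ y = x
      constructor
      · intro h1
        ext z
        rw [h1 z, h z]
      · rintro rfl z
        exact (h z).symm

end Pool.Agent.H72.HV
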